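import Pool.Agent.Helper10.Qc.Stmts

set_option autoImplicit false

/-! Weights of the lattice of Hurwitz integers: module FIB1 (sum over a fibre of type 1). -/

namespace Pool.Agent.Helper10.Qc

open Pool.Agent.Helper19.Qh Pool.Agent.Helper19.Qc

/-- the point of the fibre with the given index -/
noncomputable def fib1_a (N : ℕ) (n : Fin 3 → ℤ) : Q := hq (-(N : ℤ)) (-n 0) (-n 1) (-n 2)

theorem fib1_rho : rho 0 = 1 := by
  apply Quaternion.ext <;> simp only [Quaternion.re_one, Quaternion.imI_one, Quaternion.imJ_one,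
    Quaternion.imK_one] <;> rfl

theorem fib1_mem {b : Q} {N : ℕ} (hN : ‖b‖ ^ 2 = N) (n : Fin 3 → ℤ) : fib1_a N n ∈ FibA 0 b := by
  refine ⟨hq_mem _ _ _ _, ?_, ?_⟩
  · rw [fib1_rho, star_one, mul_one, hN]
    unfold fib1_a
    rw [hq_re]
    push_cast
    ring
  · intro h
    exact absurd h (by decide)

theorem fib1_bij {b : Q} {N : ℕ} (hN : ‖b‖ ^ 2 = N) :
    Function.Bijective (fun n : Fin 3 → ℤ => (⟨fib1_a N n, fib1_mem hN n⟩ : FibA 0 b)) := by
  constructor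
  · intro n n' h
    have h1 : fib1_a N n = fib1_a N n' := congrArg Subtype.val h
    have e1 := congrArg (fun q : Q => q.imI) h1
    have e2 := congrArg (fun q : Q => q.imJ) h1
    have e3 := congrArg (fun q : Q => q.imK) h1
    simp only [fib1_a, hq_i, hq_j, hq_k] at e1 e2 e3
    have f1 : ((-n 0 : ℤ) : ℝ) = ((-n' 0 : ℤ) : ℝ) := by linarith
    have f2 : ((-n 1 : ℤ) : ℝ) = ((-n' 1 : ℤ) : ℝ) := by linarith
    have f3 : ((-n 2 : ℤ) : ℝ) = ((-n' 2 : ℤ) : ℝ) := by linarith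
    have g1 : -n 0 = -n' 0 := by exact_mod_cast f1
    have g2 : -n 1 = -n' 1 := by exact_mod_cast f2
    have g3 : -n 2 = -n' 2 := by exact_mod_cast f3
    funext i
    fin_cases i
    · exact neg_inj.1 g1
    · exact neg_inj.1 g2
    · exact neg_inj.1 g3
  · rintro ⟨a, ha1, ha2, ha3⟩
    obtain ⟨n, x, y, z, rfl⟩ := ha1
    rw [fib1_rho, star_one, mul_one, hN, hq_re] at ha2
    have h1 : (n : ℝ) = ((-(N : ℤ) : ℤ) : ℝ) := by
      push_cast
      linarith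
    have h2 : n = -(N : ℤ) := by exact_mod_cast h1
    subst h2
    refine ⟨![-x, -y, -z], ?_⟩
    apply Subtype.ext
    simp [fib1_a]

theorem fib1_re (p : Pt 1) (b a : Q) (h : 2 * a.re + ‖b‖ ^ 2 = 0) :
    (herm (vec p) ((a, e1 b, 1) : V 1)).re = -((hgt p + ‖p.2 0 - b‖ ^ 2) / 2) := by
  have h1 : herm (vec p) ((a, e1 b, 1) : V 1) = p.1 + p.2 0 * star b + star a := by
    unfold herm vec
    rw [hin1]
    simp [e1_apply]
  rw [h1]
  unfold hgt
  rw [norm_E1, q_norm_sq (p.2 0 - b), q_norm_sq (p.2 0)]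
  rw [q_norm_sq b] at h
  simp only [Quaternion.re_add, Quaternion.re_mul, Quaternion.re_star, Quaternion.imI_star, Quaternion.imJ_star,
    Quaternion.imK_star, Quaternion.re_sub, Quaternion.imI_sub, Quaternion.imJ_sub, Quaternion.imK_sub]
  linarith

/-- the centre of the coset -/
noncomputable def fib1_c (p : Pt 1) (b : Q) (N : ℕ) : Fin 3 → ℝ :=
  ![(p.1 + p.2 0 * star b).imI + (N : ℝ) / 2, (p.1 + p.2 0 * star b).imJ + (N : ℝ) / 2,
    (p.1 + p.2 0 * star b).imK + (N : ℝ) / 2]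

theorem fib1_norm (p : Pt 1) (b : Q) {N : ℕ} (hN : ‖b‖ ^ 2 = N) (n : Fin 3 → ℤ) :
    ‖herm (vec p) ((fib1_a N n, e1 b, 1) : V 1)‖ ^ 2 =
      (hgt p + ‖p.2 0 - b‖ ^ 2) ^ 2 / 4 + ((fib1_c p b N 0 + n 0) ^ 2 + (fib1_c p b N 1 + n 1) ^ 2 +
        (fib1_c p b N 2 + n 2) ^ 2) := by
  have hre := fib1_re p b (fib1_a N n) (by
    have h := (fib1_mem hN n).2.1
    rw [fib1_rho, star_one, mul_one] at h
    exact h)
  have h1 : herm (vec p) ((fib1_a N n, e1 b, 1) : V 1) = p.1 + p.2 0 * star b + star (fib1_a N n) := by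
    unfold herm vec
    rw [hin1]
    simp [e1_apply]
  rw [q_norm_sq, hre, h1]
  have i1 : (p.1 + p.2 0 * star b + star (fib1_a N n)).imI = fib1_c p b N 0 + n 0 := by
    rw [Quaternion.imI_add, Quaternion.imI_star]
    unfold fib1_a fib1_c
    rw [hq_i]
    simp
    ring
  have i2 : (p.1 + p.2 0 * star b + star (fib1_a N n)).imJ = fib1_c p b N 1 + n 1 := by
    rw [Quaternion.imJ_add, Quaternion.imJ_star]
    unfold fib1_a fib1_c
    rw [hq_j]
    simp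
    ring
  have i3 : (p.1 + p.2 0 * star b + star (fib1_a N n)).imK = fib1_c p b N 2 + n 2 := by
    rw [Quaternion.imK_add, Quaternion.imK_star]
    unfold fib1_a fib1_c
    rw [hq_k]
    simp
    ring
  rw [i1, i2, i3]
  ring

theorem fib1_psi_nonneg (x : ℝ) : 0 ≤ Psi 1 x := by
  have h : (max x 0) ^ 2 ≤ Psi 1 x := le_max_left _ _
  exact le_trans (by positivity) h

theorem st_FIB1 (_h1 : ST_FG) (h2 : ST_F1) : ST_FIB1 := by
  intro p hp b hb
  have hp0 : 0 < hgt p := hp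
  obtain ⟨N, hN⟩ := HO_norm_sq hb
  set h := hgt p with hh
  set r := ‖p.2 0 - b‖ ^ 2 with hr
  have hr0 : 0 ≤ r := by positivity
  have hBv : Bv 1 h (p.2 0) b = 5 / 4 * h - (h + r) ^ 2 / 4 := by
    unfold Bv
    rw [← hr]
    push_cast
    ring
  -- reindexing
  have e1' : ∑' a : FibA 0 b, F5 (uval (((a : Q), e1 b, rho 0) : V 1) p) =
      ∑' n : Fin 3 → ℤ, F5 (uval ((fib1_a N n, e1 b, rho 0) : V 1) p) :=
    ((Equiv.ofBijective _ (fib1_bij hN)).tsum_eq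
      (fun a : FibA 0 b => F5 (uval (((a : Q), e1 b, rho 0) : V 1) p))).symm
  have e2 : ∀ n : Fin 3 → ℤ, F5 (uval ((fib1_a N n, e1 b, rho 0) : V 1) p) =
      ENNReal.ofReal ((max (Bv 1 h (p.2 0) b - ((fib1_c p b N 0 + n 0) ^ 2 + (fib1_c p b N 1 + n 1) ^ 2 +
        (fib1_c p b N 2 + n 2) ^ 2)) 0) ^ 2) * ENNReal.ofReal (1 / h ^ 2) := by
    intro n
    rw [← ENNReal.ofReal_mul (by positivity)]
    unfold F5 uval
    rw [fib1_rho, fib1_norm p b hN n, ← hh, ← hr, hBv]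
    congr 1
    set s := (fib1_c p b N 0 + n 0) ^ 2 + (fib1_c p b N 1 + n 1) ^ 2 + (fib1_c p b N 2 + n 2) ^ 2
    have h3 : 5 / 4 - ((h + r) ^ 2 / 4 + s) / h = (5 / 4 * h - (h + r) ^ 2 / 4 - s) / h := by
      field_simp
      ring
    have h4 : max ((5 / 4 * h - (h + r) ^ 2 / 4 - s) / h) 0 = max (5 / 4 * h - (h + r) ^ 2 / 4 - s) 0 / h := by
      rw [← max_div_div_right hp0.le, zero_div]
    rw [h3, h4, div_pow]
    ring
  rw [e1', tsum_congr e2, ENNReal.tsum_mul_right]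
  have hB : Bv 1 h (p.2 0) b ≤ 13 / 8 := by
    rw [hBv]
    nlinarith [sq_nonneg (h - 5 / 2), mul_nonneg hp0.le hr0, sq_nonneg r]
  have h5 := h2 (Bv 1 h (p.2 0) b) (fib1_c p b N) hB
  unfold S3 at h5
  calc (∑' n : Fin 3 → ℤ, ENNReal.ofReal ((max (Bv 1 h (p.2 0) b - ((fib1_c p b N 0 + n 0) ^ 2 +
        (fib1_c p b N 1 + n 1) ^ 2 + (fib1_c p b N 2 + n 2) ^ 2)) 0) ^ 2)) * ENNReal.ofReal (1 / h ^ 2)
      ≤ ENNReal.ofReal (Psi 1 (Bv 1 h (p.2 0) b)) * ENNReal.ofReal (1 / h ^ 2) := by gcongr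
    _ = ENNReal.ofReal (Psi 1 (Bv 1 h (p.2 0) b) / h ^ 2) := by
        rw [← ENNReal.ofReal_mul (fib1_psi_nonneg _)]
        congr 1
        ring

end Pool.Agent.Helper10.Qc
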