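import Pool.Agent.Helper10.Qc.Stmts

set_option autoImplicit false

/-! Weights of the lattice of Hurwitz integers: modules GRAM and S1 (sums over separated points). -/

namespace Pool.Agent.Helper10.Qc

open Pool.Agent.Helper19.Qh Pool.Agent.Helper19.Qc

theorem gram_sq {ι : Type} (s : Finset ι) (y : ι → ℝ) (x : ι → Q) :
    ‖∑ i ∈ s, y i • x i‖ ^ 2 = ∑ i ∈ s, ∑ j ∈ s, y i * y j * inner ℝ (x i) (x j) := by
  rw [← real_inner_self_eq_norm_sq, sum_inner]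
  refine Finset.sum_congr rfl fun i _ => ?_
  rw [inner_sum]
  refine Finset.sum_congr rfl fun j _ => ?_
  rw [real_inner_smul_left, real_inner_smul_right]
  ring

theorem gram_id {ι : Type} (s : Finset ι) (y : ι → ℝ) (x : ι → Q) :
    ∑ i ∈ s, ∑ j ∈ s, y i * y j * ‖x i - x j‖ ^ 2 =
      2 * (∑ i ∈ s, y i) * (∑ i ∈ s, y i * ‖x i‖ ^ 2) - 2 * ‖∑ i ∈ s, y i • x i‖ ^ 2 := by
  have h1 : ∑ i ∈ s, ∑ j ∈ s, y i * y j * ‖x i - x j‖ ^ 2 =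
      ∑ i ∈ s, ∑ j ∈ s, ((y i * ‖x i‖ ^ 2) * y j + y i * (y j * ‖x j‖ ^ 2) -
        2 * (y i * y j * inner ℝ (x i) (x j))) := by
    refine Finset.sum_congr rfl fun i _ => Finset.sum_congr rfl fun j _ => ?_
    rw [norm_sub_sq_real]
    ring
  rw [h1, gram_sq]
  simp only [Finset.sum_sub_distrib, Finset.sum_add_distrib, ← Finset.mul_sum, ← Finset.sum_mul]
  ring

theorem gram_sep {ι : Type} (s : Finset ι) (y : ι → ℝ) (x : ι → Q) (σ : ℝ) (hy : ∀ i ∈ s, 0 ≤ y i)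
    (hx : ∀ i ∈ s, ∀ j ∈ s, i ≠ j → σ ≤ ‖x i - x j‖ ^ 2) :
    σ * ((∑ i ∈ s, y i) ^ 2 - ∑ i ∈ s, y i ^ 2) ≤ ∑ i ∈ s, ∑ j ∈ s, y i * y j * ‖x i - x j‖ ^ 2 := by
  classical
  have h1 : σ * ((∑ i ∈ s, y i) ^ 2 - ∑ i ∈ s, y i ^ 2) =
      ∑ i ∈ s, ∑ j ∈ s, (if i = j then 0 else σ * (y i * y j)) := by
    have h2 : (∑ i ∈ s, y i) ^ 2 = ∑ i ∈ s, ∑ j ∈ s, y i * y j := by
      rw [sq, Finset.sum_mul_sum]
    have h3 : ∑ i ∈ s, y i ^ 2 = ∑ i ∈ s, ∑ j ∈ s, (if i = j then y i * y j else 0) := by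
      refine Finset.sum_congr rfl fun i hi => ?_
      rw [Finset.sum_ite_eq s i (fun j => y i * y j), if_pos hi, sq]
    rw [h2, h3, ← Finset.sum_sub_distrib, Finset.mul_sum]
    refine Finset.sum_congr rfl fun i _ => ?_
    rw [← Finset.sum_sub_distrib, Finset.mul_sum]
    refine Finset.sum_congr rfl fun j _ => ?_
    split_ifs <;> ring
  rw [h1]
  refine Finset.sum_le_sum fun i hi => Finset.sum_le_sum fun j hj => ?_
  split_ifs with h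
  · subst h
    simp
  · rw [mul_comm σ]
    exact mul_le_mul_of_nonneg_left (hx i hi j hj h) (mul_nonneg (hy i hi) (hy j hj))

theorem st_GRAM : ST_GRAM := by
  intro ι s x B σ hB hx
  have h1 := gram_sep s (fun i => B - ‖x i‖ ^ 2) x σ (fun i hi => (hB i hi).le) hx
  have h2 := gram_id s (fun i => B - ‖x i‖ ^ 2) x
  have h3 : ∑ i ∈ s, (B - ‖x i‖ ^ 2) * ‖x i‖ ^ 2 =
      B * ∑ i ∈ s, (B - ‖x i‖ ^ 2) - ∑ i ∈ s, (B - ‖x i‖ ^ 2) ^ 2 := by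
    rw [Finset.mul_sum, ← Finset.sum_sub_distrib]
    refine Finset.sum_congr rfl fun i _ => ?_
    ring
  rw [h3] at h2
  have h4 : 0 ≤ ‖∑ i ∈ s, (B - ‖x i‖ ^ 2) • x i‖ ^ 2 := by positivity
  set S1 := ∑ i ∈ s, (B - ‖x i‖ ^ 2)
  set S2 := ∑ i ∈ s, (B - ‖x i‖ ^ 2) ^ 2
  nlinarith [h1, h2, h4]

theorem st_S1 : ST_S1 := by
  intro ι s x B σ hx hB0 hB
  have h1 := gram_sep s (fun _ => (1 : ℝ)) x σ (fun _ _ => zero_le_one) hx
  have h2 := gram_id s (fun _ => (1 : ℝ)) x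
  have h4 : 0 ≤ ‖∑ i ∈ s, (1 : ℝ) • x i‖ ^ 2 := by positivity
  simp only [one_mul, Finset.sum_const, nsmul_eq_mul, mul_one, one_pow] at h1 h2
  have h5 : ∑ i ∈ s, (B - ‖x i‖ ^ 2) = s.card * B - ∑ i ∈ s, ‖x i‖ ^ 2 := by
    rw [Finset.sum_sub_distrib, Finset.sum_const, nsmul_eq_mul]
  rw [h5]
  rcases Nat.eq_zero_or_pos s.card with h0 | h0
  · have hs : s = ∅ := Finset.card_eq_zero.1 h0
    subst hs
    simpa using hB0
  · have hK : (1 : ℝ) ≤ (s.card : ℝ) := by exact_mod_cast h0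
    set K : ℝ := (s.card : ℝ)
    set N2 := ∑ i ∈ s, ‖x i‖ ^ 2
    have h6 : K * (σ * (K - 1)) ≤ K * (2 * N2) := by nlinarith [h1, h2, h4]
    have h7 : σ * (K - 1) ≤ 2 * N2 := le_of_mul_le_mul_left h6 (by linarith)
    nlinarith [mul_nonneg (sub_nonneg.2 hK) (sub_nonneg.2 hB)]

end Pool.Agent.Helper10.Qc
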